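import Pool.Agent.Y624.CT.Eig2
import Pool.Agent.Y552.CT.Stm4

/-!
# A subgroup of polynomial index with an eigenvector, solvable actions (by helper61)
-/

set_option autoImplicit false

namespace Pool.Agent.Y61.CT

open Module Pool.Agent.Y38.CT Pool.Agent.Y552.CT Pool.Agent.Y624.CT

universe u v

/-- independence of operators which commute up to scalars -/
theorem indep_index {H : Type u} [Group H] {U : Type v} [AddCommGroup U] [Module ℂ U]
    [FiniteDimensional ℂ U] [Nontrivial U] (σ : H →* Module.End ℂ U)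
    (hM : ∀ a b : H, a * b * a⁻¹ * b⁻¹ ∈ scl σ) (Z : Subgroup H) (hZn : Z.Normal)
    (hZ : ∀ c : H, (∀ y : H, σ c * σ y = σ y * σ c) → c ∈ Z) :
    Z.index ≠ 0 ∧ Z.index ≤ finrank ℂ U * finrank ℂ U := by
  classical
  have hcom : ∀ a ∈ (⊤ : Subgroup H), ∀ b ∈ (⊤ : Subgroup H),
      sig σ a * sig σ b = sig σ b * sig σ a := by
    intro a _ b _
    have h1 := sig_scl (hM a b)
    have h2 : a * b = (a * b * a⁻¹ * b⁻¹) * (b * a) := by group
    rw [← map_mul, ← map_mul, h2, map_mul, h1, one_mul]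
  have hχ : ∀ (r : H) (d : (⊤ : Subgroup H)), ∃ c : ℂ, sig σ (d : H) (σ r) = c • σ r := by
    intro r d
    obtain ⟨c, hc⟩ := mem_scl.1 (hM d r)
    refine ⟨c, ?_⟩
    rw [sig_apply, ← map_mul, ← map_mul]
    have h2 : (d : H) * (r * (d : H)⁻¹) = ((d : H) * r * (d : H)⁻¹ * r⁻¹) * r := by group
    rw [h2, map_mul, hc, smul_mul_assoc, one_mul]
  choose χ hχ using hχ
  have hrχ : ∀ r, σ r ∈ ws (sig σ) ⊤ (χ r) := fun r => mem_ws.2 (hχ r)
  have hinj : ∀ r s : H, χ r = χ s → (r : H ⧸ Z) = s := by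
    intro r s he
    have h1 : (s : H ⧸ Z) = r := by
      rw [QuotientGroup.eq, hZn.mem_comm_iff]
      refine hZ (r * s⁻¹) fun y => ?_
      have h4 := hχ r ⟨y, Subgroup.mem_top y⟩
      have h5 := hχ s ⟨y, Subgroup.mem_top y⟩
      rw [he] at h4
      rw [sig_apply] at h4 h5
      generalize χ s ⟨y, Subgroup.mem_top y⟩ = c at h4 h5
      have h6 : σ y * σ r = c • (σ r * σ y) := by
        have h7 : (σ y * (σ r * σ y⁻¹)) * σ y = (c • σ r) * σ y := by
          rw [show σ y * (σ r * σ y⁻¹) = c • σ r from h4]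
        rw [mul_assoc, mul_assoc, Pool.Agent.Y624.CT.inv_mul', mul_one, smul_mul_assoc] at h7
        exact h7
      have h8 : σ y * σ s = c • (σ s * σ y) := by
        have h7 : (σ y * (σ s * σ y⁻¹)) * σ y = (c • σ s) * σ y := by
          rw [show σ y * (σ s * σ y⁻¹) = c • σ s from h5]
        rw [mul_assoc, mul_assoc, Pool.Agent.Y624.CT.inv_mul', mul_one, smul_mul_assoc] at h7
        exact h7
      have h9 : σ s⁻¹ * σ y * σ s = c • σ y := by
        rw [mul_assoc, h8, mul_smul_comm, ← mul_assoc, Pool.Agent.Y624.CT.inv_mul',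
          one_mul]
      calc σ (r * s⁻¹) * σ y = σ r * (σ s⁻¹ * σ y * σ s) * σ s⁻¹ := by
            rw [map_mul, mul_assoc (σ r), mul_assoc (σ r), mul_assoc (σ s⁻¹ * σ y), mul_inv',
              mul_one]
        _ = (c • (σ r * σ y)) * σ s⁻¹ := by rw [h9, mul_smul_comm]
        _ = σ y * σ (r * s⁻¹) := by rw [← h6, map_mul, mul_assoc]
    exact h1.symm
  obtain ⟨p, hp⟩ : ∃ p : H ⧸ Z → Submodule ℂ (Module.End ℂ U),
      p = fun r => ws (sig σ) ⊤ (χ (Quotient.out r)) := ⟨_, rfl⟩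
  have hpi : iSupIndep p := by
    rw [hp]
    refine (ws_indep (sig σ) ⊤ hcom).comp (f := fun r : H ⧸ Z => χ (Quotient.out r)) ?_
    intro r r' he
    have h1 := hinj _ _ he
    rwa [QuotientGroup.out_eq', QuotientGroup.out_eq'] at h1
  have hpn : ∀ r, p r ≠ ⊥ := by
    intro r h0
    have h1 : σ (Quotient.out r) ∈ p r := by
      rw [hp]
      exact hrχ _
    rw [h0, Submodule.mem_bot] at h1
    have h3 := mul_inv' σ (Quotient.out r)
    rw [h1, zero_mul] at h3
    exact zero_ne_one h3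
  have : Finite (H ⧸ Z) := WellFoundedGT.finite_of_iSupIndep hpi hpn
  have := Fintype.ofFinite (H ⧸ Z)
  refine ⟨?_, ?_⟩
  · unfold Subgroup.index
    exact Nat.card_pos.ne'
  · unfold Subgroup.index
    rw [Nat.card_eq_fintype_card]
    have h1 := sum_fin p hpi
    rw [Module.finrank_linearMap] at h1
    refine le_trans ?_ h1
    calc Fintype.card (H ⧸ Z) = ∑ _r : H ⧸ Z, 1 := by simp
      _ ≤ ∑ r : H ⧸ Z, finrank ℂ (p r) :=
        Finset.sum_le_sum fun r _ => Submodule.one_le_finrank_iff.2 (hpn r)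

/-- the order of the group of automorphisms -/
theorem ord_app' (h : S_ORD.{u, u}) {G : Type u} [Group G] (P : Type u) [CommGroup P] [Finite P]
    [Nontrivial P] (f : G →* MulAut P) (hsolv : ∃ n, ∀ a ∈ derivedSeries G n, f a = 1)
    (hirr : ∀ U : Subgroup P, (∀ g, ∀ w ∈ U, f g w ∈ U) → U = ⊥ ∨ U = ⊤) :
    f.ker.index ≠ 0 ∧ f.ker.index ≤ Nat.card P ^ 10 := by
  have hfin : Finite (MulAut P) := inferInstanceAs (Finite (P ≃* P))
  have hfin2 : Finite f.range := inferInstance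
  have hs : Group.IsSolvable f.range := by
    obtain ⟨n, hn⟩ := hsolv
    refine ⟨⟨n, ?_⟩⟩
    have h1 := map_derivedSeries_eq (f := f.rangeRestrict) f.rangeRestrict_surjective n
    rw [← h1, eq_bot_iff]
    rintro _ ⟨a, ha, rfl⟩
    rw [Subgroup.mem_bot]
    exact Subtype.ext (hn a ha)
  obtain ⟨ρ, hρ⟩ : ∃ ρ : f.range →* AddMonoid.End (Additive P), ∀ (γ : f.range) (x : P),
      ρ γ (Additive.ofMul x) = Additive.ofMul ((γ : MulAut P) x) :=
    ⟨{ toFun := fun γ => MonoidHom.toAdditive (MulEquiv.toMonoidHom (γ : MulAut P))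
       map_one' := rfl
       map_mul' := fun a b => rfl }, fun γ x => rfl⟩
  have h1 := h f.range (Additive P) ρ (by
    intro a b hab
    apply Subtype.ext
    apply MulEquiv.ext
    intro x
    have h2 := DFunLike.congr_fun hab (Additive.ofMul x)
    rw [hρ, hρ] at h2
    exact Additive.ofMul.injective h2) (by
    intro U hU
    rcases hirr (AddSubgroup.toSubgroup' U) (fun g w hw => by
      have h3 := hU ⟨f g, g, rfl⟩ (Additive.ofMul w) hw
      rw [hρ] at h3
      exact h3) with h2 | h2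
    · left
      rw [eq_bot_iff]
      intro x hx
      have h3 : Additive.toMul x ∈ AddSubgroup.toSubgroup' U := hx
      rw [h2, Subgroup.mem_bot] at h3
      exact h3
    · right
      rw [eq_top_iff]
      intro x _
      have h3 : Additive.toMul x ∈ AddSubgroup.toSubgroup' U := by
        rw [h2]
        exact Subgroup.mem_top _
      exact h3)
  rw [Subgroup.index_ker]
  have h2 : Nat.card (Additive P) = Nat.card P := rfl
  rw [h2] at h1
  refine ⟨Nat.card_pos.ne', ?_⟩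
  omega

/-- the order of the group of automorphisms of a minimal normal subgroup of a quotient -/
theorem ord_app (h : S_ORD.{u, u}) {G : Type u} [Group G] (Z E : Subgroup G) (hZn : Z.Normal)
    (hEn : E.Normal) (hZE : Z ≤ E) (hEZ : ¬ E ≤ Z)
    (hcomm : ∀ a ∈ E, ∀ b ∈ E, a * b * a⁻¹ * b⁻¹ ∈ Z)
    (hfin : Z.relIndex E ≠ 0)
    (hsolv : ∃ n, ∀ a ∈ derivedSeries G n, ∀ x ∈ E, a * x * a⁻¹ * x⁻¹ ∈ Z)
    (hmin : ∀ E' : Subgroup G, E'.Normal → Z ≤ E' → E' ≤ E → E' ≤ Z ∨ E ≤ E') :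
    ∃ C : Subgroup G, (∀ g, g ∈ C ↔ ∀ x ∈ E, g * x * g⁻¹ * x⁻¹ ∈ Z) ∧ C.index ≠ 0 ∧
      C.index ≤ (Z.relIndex E) ^ 10 := by
  obtain ⟨π, hπ⟩ : ∃ π : G →* G ⧸ Z, π = QuotientGroup.mk' Z := ⟨_, rfl⟩
  have hπs : Function.Surjective π := by rw [hπ]; exact QuotientGroup.mk'_surjective Z
  have hπk : π.ker = Z := by rw [hπ]; exact QuotientGroup.ker_mk' Z
  have hπ1 : ∀ g, π g = 1 ↔ g ∈ Z := fun g => by rw [← MonoidHom.mem_ker, hπk]
  have hPn : (E.map π).Normal := hEn.map π hπs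
  have hPc : ∀ a b : E.map π, a * b = b * a := by
    rintro ⟨_, a, ha, rfl⟩ ⟨_, b, hb, rfl⟩
    apply Subtype.ext
    change π a * π b = π b * π a
    have h1 := (hπ1 _).2 (hcomm a ha b hb)
    rw [map_mul, map_mul, map_mul, map_inv, map_inv, mul_inv_eq_one, mul_inv_eq_iff_eq_mul] at h1
    exact h1
  have hcard : Z.relIndex E = Nat.card (E.map π) := by
    have h1 := Subgroup.relIndex_ker (f := π) (K := E)
    rw [hπk] at h1
    exact h1
  let cg : CommGroup (E.map π) := { (Subgroup.toGroup (E.map π)) with mul_comm := hPc }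
  have hf1 : Finite (E.map π) := Nat.finite_of_card_ne_zero (by rw [← hcard]; exact hfin)
  have hf2 : Nontrivial (E.map π) := by
    obtain ⟨e, he, heZ⟩ := SetLike.not_le_iff_exists.1 hEZ
    refine ⟨⟨⟨π e, e, he, rfl⟩, 1, ?_⟩⟩
    intro h0
    exact heZ ((hπ1 e).1 (congrArg Subtype.val h0))
  obtain ⟨f, hf⟩ : ∃ f : G →* MulAut (E.map π), ∀ (g : G) (x : E.map π),
      ((f g x : E.map π) : G ⧸ Z) = π g * x * (π g)⁻¹ :=
    ⟨(MulAut.conjNormal (H := E.map π)).comp π, fun g x => rfl⟩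
  have hfk : ∀ g, f g = 1 ↔ ∀ x ∈ E, g * x * g⁻¹ * x⁻¹ ∈ Z := by
    intro g
    constructor
    · intro h1 x hx
      have h2 := hf g ⟨π x, x, hx, rfl⟩
      rw [h1] at h2
      change π x = π g * π x * (π g)⁻¹ at h2
      rw [← hπ1, map_mul, map_mul, map_mul, map_inv, map_inv, ← h2, mul_inv_cancel]
    · intro h1
      apply MulEquiv.ext
      rintro ⟨_, x, hx, rfl⟩
      apply Subtype.ext
      rw [hf]
      change π g * π x * (π g)⁻¹ = π x
      have h2 := (hπ1 _).2 (h1 x hx)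
      rw [map_mul, map_mul, map_mul, map_inv, map_inv, mul_inv_eq_one] at h2
      exact h2
  obtain ⟨h1, h2⟩ := ord_app' h (E.map π) f (by
    obtain ⟨n, hn⟩ := hsolv
    exact ⟨n, fun a ha => (hfk a).2 (hn a ha)⟩) (by
    intro U hU
    obtain ⟨E', hE'⟩ : ∃ E' : Subgroup G, ∀ g, g ∈ E' ↔ ∃ u ∈ U, ((u : E.map π) : G ⧸ Z) = π g := by
      refine ⟨(U.map (E.map π).subtype).comap π, fun g => ?_⟩
      rw [Subgroup.mem_comap, Subgroup.mem_map]
      rfl
    have e1 : Z ≤ E' := by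
      intro z hz
      rw [hE']
      exact ⟨1, U.one_mem, ((hπ1 z).2 hz).symm⟩
    have e2 : E' ≤ E := by
      intro g hg
      obtain ⟨⟨_, x, hx, rfl⟩, hu, hug⟩ := (hE' g).1 hg
      change π x = π g at hug
      have h3 : π (x⁻¹ * g) = 1 := by rw [map_mul, map_inv, hug, inv_mul_cancel]
      have h4 := E.mul_mem hx (hZE ((hπ1 _).1 h3))
      rwa [mul_inv_cancel_left] at h4
    have e3 : E'.Normal := by
      refine ⟨fun g hg k => ?_⟩
      rw [hE'] at hg ⊢
      obtain ⟨u, hu, hug⟩ := hg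
      refine ⟨f k u, hU k u hu, ?_⟩
      rw [hf, hug, map_mul, map_mul, map_inv]
    rcases hmin E' e3 e1 e2 with h3 | h3
    · left
      rw [eq_bot_iff]
      rintro ⟨_, x, hx, rfl⟩ hu
      rw [Subgroup.mem_bot]
      apply Subtype.ext
      exact (hπ1 x).2 (h3 ((hE' x).2 ⟨_, hu, rfl⟩))
    · right
      rw [eq_top_iff]
      rintro ⟨_, x, hx, rfl⟩ _
      obtain ⟨u, hu, hux⟩ := (hE' x).1 (h3 hx)
      have h4 : u = ⟨π x, x, hx, rfl⟩ := Subtype.ext hux
      rwa [← h4])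
  refine ⟨f.ker, fun g => ?_, h1, ?_⟩
  · rw [MonoidHom.mem_ker]
    exact hfk g
  · rw [hcard]
    exact h2

/-- the span of an orbit of a line -/
theorem orbit_span {G : Type u} [Group G] {V : Type v} [AddCommGroup V] [Module ℂ V]
    [FiniteDimensional ℂ V] (ρ : G →* Module.End ℂ V) (L E : Subgroup G) (w : V) (hw0 : w ≠ 0)
    (hw : ∀ k ∈ L, k ∈ E → ∃ c : ℂ, ρ k w = c • w) (hfin : L.relIndex E ≠ 0) :
    ∃ U : Submodule ℂ V, U ≠ ⊥ ∧ (∀ e ∈ E, ∀ u ∈ U, ρ e u ∈ U) ∧
      finrank ℂ U ≤ L.relIndex E := by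
  classical
  have hf : Finite (E ⧸ L.subgroupOf E) := by
    refine Nat.finite_of_card_ne_zero ?_
    exact hfin
  have := Fintype.ofFinite (E ⧸ L.subgroupOf E)
  obtain ⟨b, hb⟩ : ∃ b : (E ⧸ L.subgroupOf E) → V,
      b = fun t => ρ ((Quotient.out t : E) : G) w := ⟨_, rfl⟩
  have hbt : ∀ t, b t = ρ ((Quotient.out t : E) : G) w := fun t => by rw [hb]
  have hmem : ∀ e ∈ E, ρ e w ∈ Submodule.span ℂ (Set.range b) := by
    intro e he
    obtain ⟨t, ht⟩ : ∃ t : E ⧸ L.subgroupOf E, t = ((⟨e, he⟩ : E) : E ⧸ L.subgroupOf E) := ⟨_, rfl⟩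
    have h1 : ((Quotient.out t : E) : E ⧸ L.subgroupOf E) = ((⟨e, he⟩ : E) : E ⧸ L.subgroupOf E) := by
      rw [QuotientGroup.out_eq', ht]
    rw [QuotientGroup.eq, Subgroup.mem_subgroupOf] at h1
    generalize hr : (Quotient.out t : E) = r at h1
    obtain ⟨c, hc⟩ := hw _ h1 (r⁻¹ * ⟨e, he⟩ : E).2
    have h2 : ρ e w = c • b t := by
      rw [hb]
      dsimp only
      rw [hr, ← map_smul, ← hc, ← Module.End.mul_apply, ← map_mul]
      congr 2
      change e = (r : G) * ((r : G)⁻¹ * e)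
      group
    rw [h2]
    exact Submodule.smul_mem _ _ (Submodule.subset_span ⟨t, rfl⟩)
  refine ⟨Submodule.span ℂ (Set.range b), ?_, ?_, ?_⟩
  · intro h0
    have h1 := hmem 1 E.one_mem
    rw [h0, Submodule.mem_bot, map_one] at h1
    exact hw0 h1
  · intro e he u hu
    induction hu using Submodule.span_induction with
    | mem x hx =>
      obtain ⟨t, rfl⟩ := hx
      rw [hbt, ← Module.End.mul_apply, ← map_mul]
      exact hmem _ (E.mul_mem he (Quotient.out t : E).2)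
    | zero => rw [map_zero]; exact Submodule.zero_mem _
    | add x y _ _ hx hy => rw [map_add]; exact Submodule.add_mem _ hx hy
    | smul c x _ hx => rw [map_smul]; exact Submodule.smul_mem _ _ hx
  · have h1 := finrank_range_le_card (R := ℂ) b
    unfold Subgroup.relIndex Subgroup.index
    rw [Nat.card_eq_fintype_card]
    exact h1

/-- the case of an extraspecial section -/
theorem extra (hO : S_ORD.{u, u}) {G : Type u} [Group G] {V : Type v} [AddCommGroup V]
    [Module ℂ V] [FiniteDimensional ℂ V] [Nontrivial V] (ρ : G →* Module.End ℂ V)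
    (hsolv : ∃ n : ℕ, ∀ a ∈ derivedSeries G n, ρ a = 1)
    (Z E : Subgroup G) (hZn : Z.Normal) (hEn : E.Normal) (hZE : Z ≤ E) (hEZ : ¬ E ≤ Z)
    (hZs : ∀ g, g ∈ Z ↔ g ∈ E ∧ g ∈ scl ρ)
    (hcomm : ∀ a ∈ E, ∀ b ∈ E, a * b * a⁻¹ * b⁻¹ ∈ scl ρ)
    (hfin : Z.relIndex E ≠ 0)
    (hmin : ∀ E' : Subgroup G, E'.Normal → Z ≤ E' → E' ≤ E → E' ≤ Z ∨ E ≤ E')
    (hcen : ∀ c ∈ E, (∀ y ∈ E, ρ c * ρ y = ρ y * ρ c) → c ∈ scl ρ) :
    ∃ (K : Subgroup G) (W : Submodule ℂ V), W ≠ ⊥ ∧ W ≠ ⊤ ∧ (∀ g ∈ K, ∀ w ∈ W, ρ g w ∈ W) ∧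
      K.index ≠ 0 ∧ K.index * finrank ℂ W ^ 21 ≤ finrank ℂ V ^ 21 := by
  classical
  have hcommZ : ∀ a ∈ E, ∀ b ∈ E, a * b * a⁻¹ * b⁻¹ ∈ Z := fun a ha b hb =>
    (hZs _).2 ⟨E.mul_mem (E.mul_mem (E.mul_mem ha hb) (E.inv_mem ha)) (E.inv_mem hb),
      hcomm a ha b hb⟩
  obtain ⟨C, hC, hC0, hCi⟩ := ord_app hO Z E hZn hEn hZE hEZ hcommZ hfin (by
    obtain ⟨n, hn⟩ := hsolv
    refine ⟨n, fun a ha x hx => ?_⟩
    rw [hZs]
    refine ⟨E.mul_mem (hEn.conj_mem x hx a) (E.inv_mem hx), mem_scl.2 ⟨1, ?_⟩⟩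
    have h1 : ρ a⁻¹ = 1 := hn _ (Subgroup.inv_mem _ ha)
    rw [map_mul, map_mul, map_mul, hn a ha, h1, one_mul, mul_one, mul_inv', one_smul]) hmin
  have hEC : E ≤ C := fun e he => (hC e).2 fun x hx => hcommZ e he x hx
  have hsc : ∀ d ∈ scl ρ, ∀ y : G, ρ d * ρ y = ρ y * ρ d := by
    intro d hd y
    obtain ⟨c, hc⟩ := mem_scl.1 hd
    rw [hc, smul_mul_assoc, one_mul, mul_smul_comm, mul_one]
  -- a maximal commutative subgroup
  have hex : ∃ k : ℕ, ∃ X : Subgroup G, Z ≤ X ∧ X ≤ E ∧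
      (∀ a ∈ X, ∀ b ∈ X, ρ a * ρ b = ρ b * ρ a) ∧ X.relIndex E = k :=
    ⟨_, Z, le_rfl, hZE, fun a ha b _ => hsc a ((hZs a).1 ha).2 b, rfl⟩
  obtain ⟨X, hZX, hXE, hXc, hXk⟩ := Nat.find_spec hex
  have hXmin : ∀ X' : Subgroup G, Z ≤ X' → X' ≤ E → (∀ a ∈ X', ∀ b ∈ X', ρ a * ρ b = ρ b * ρ a) →
      X.relIndex E ≤ X'.relIndex E := by
    intro X' h1 h2 h3
    rw [hXk]
    exact Nat.find_min' hex ⟨X', h1, h2, h3, rfl⟩
  clear hXk
  have hXE0 : X.relIndex E ≠ 0 := by
    have h1 := Subgroup.relIndex_mul_relIndex Z X E hZX hXE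
    intro h0
    rw [h0, mul_zero] at h1
    exact hfin h1.symm
  have hXmax : ∀ x0 ∈ E, (∀ x ∈ X, ρ x0 * ρ x = ρ x * ρ x0) → x0 ∈ X := by
    intro x0 hx0 hc
    obtain ⟨X', hX'⟩ : ∃ X' : Subgroup G, X' = X ⊔ Subgroup.zpowers x0 := ⟨_, rfl⟩
    have hXX' : X ≤ X' := by rw [hX']; exact le_sup_left
    have hx0X' : x0 ∈ X' := by
      rw [hX']
      exact (le_sup_right : Subgroup.zpowers x0 ≤ _) (Subgroup.mem_zpowers x0)
    have hX'E : X' ≤ E := by
      rw [hX']
      refine sup_le hXE ?_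
      rw [Subgroup.zpowers_le]
      exact hx0
    have h4 : X' ≤ cen ρ x0 := by
      rw [hX']
      refine sup_le (fun d hd => (hc d hd).symm) ?_
      rw [Subgroup.zpowers_le]
      exact Commute.refl _
    have h5 : ∀ y ∈ X, X' ≤ cen ρ y := by
      intro y hy
      rw [hX']
      refine sup_le (fun d hd => hXc d hd y hy) ?_
      rw [Subgroup.zpowers_le]
      exact hc y hy
    have h6 : ∀ y ∈ X', X' ≤ cen ρ y := by
      intro y hy
      conv_lhs => rw [hX']
      refine sup_le (fun d hd => ?_) ?_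
      · exact (mem_cen.1 (h5 d hd hy)).symm
      · rw [Subgroup.zpowers_le]
        exact (mem_cen.1 (h4 hy)).symm
    have h7 := hXmin X' (hZX.trans hXX') hX'E (fun a ha b hb => (mem_cen.1 (h6 b hb ha)).eq)
    have h8 := Subgroup.relIndex_mul_relIndex X X' E hXX' hX'E
    have h9 : X.relIndex X' = 1 := by
      have h10 : X.relIndex X' ≠ 0 := by
        intro h0
        rw [h0, zero_mul] at h8
        exact hXE0 h8.symm
      have h11 : X.relIndex X' ≤ 1 := by
        by_contra hlt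
        push Not at hlt
        have h12 : X'.relIndex E ≠ 0 := by
          intro h0
          rw [h0, mul_zero] at h8
          exact hXE0 h8.symm
        have h13 : 2 * X'.relIndex E ≤ X.relIndex X' * X'.relIndex E :=
          Nat.mul_le_mul_right _ hlt
        omega
      omega
    exact Subgroup.relIndex_eq_one.1 h9 hx0X'
  have hXC : X ≤ C := hXE.trans hEC
  have hXn : (X.subgroupOf C).Normal := by
    refine ⟨fun d hd g => ?_⟩
    rw [Subgroup.mem_subgroupOf] at hd ⊢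
    change (g : G) * (d : G) * (g : G)⁻¹ ∈ X
    have h1 := hZX ((hC g).1 g.2 d (hXE hd))
    have h2 : (g : G) * (d : G) * (g : G)⁻¹ = ((g : G) * d * (g : G)⁻¹ * (d : G)⁻¹) * d := by group
    rw [h2]
    exact X.mul_mem h1 hd
  obtain ⟨K, W, hW0, hKW, hK0, hKi, hKs⟩ := step (ρ.comp C.subtype) (X.subgroupOf C)
    (fun a ha b hb => hXc a (Subgroup.mem_subgroupOf.1 ha) b (Subgroup.mem_subgroupOf.1 hb))
  have hXs : ∀ x ∈ X, ∃ c : ℂ, ∀ w ∈ W, ρ x w = c • w := by
    intro x hx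
    obtain ⟨c, hc⟩ := hKs ⟨x, hXC hx⟩ (Subgroup.mem_subgroupOf.2 hx)
    exact ⟨c, hc⟩
  obtain ⟨K', hK'⟩ : ∃ K' : Subgroup G, K' = K.map C.subtype := ⟨_, rfl⟩
  have hK'C : K' ≤ C := by
    rw [hK']
    rintro _ ⟨k, _, rfl⟩
    exact k.2
  have hK'W : ∀ g ∈ K', ∀ w ∈ W, ρ g w ∈ W := by
    rw [hK']
    rintro _ ⟨k, hk, rfl⟩ w hw
    exact hKW k hk w hw
  have hK'i : K'.index = K.index * C.index := by rw [hK', Subgroup.index_map_subtype]
  have hK'0 : K'.index ≠ 0 := by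
    rw [hK'i]
    exact mul_ne_zero hK0 hC0
  have hK'r : K'.relIndex C = K.index := by
    have h1 := Subgroup.relIndex_mul_index hK'C
    rw [hK'i] at h1
    exact Nat.eq_of_mul_eq_mul_right (Nat.pos_of_ne_zero hC0) h1
  obtain ⟨w0, hw0, hw00⟩ := Submodule.exists_mem_ne_zero_of_ne_bot hW0
  have hKE : ∀ e ∈ K', e ∈ E → e ∈ X := by
    intro e heK heE
    refine hXmax e heE fun x hx => ?_
    obtain ⟨s, hs⟩ := mem_scl.1 (hcomm e heE x (hXE hx))
    have h1 : ρ e * ρ x = s • (ρ x * ρ e) := by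
      have h7 : e * x = (e * x * e⁻¹ * x⁻¹) * (x * e) := by group
      rw [← map_mul, h7, map_mul, hs, smul_mul_assoc, one_mul, map_mul]
    obtain ⟨c, hc⟩ := hXs x hx
    have h2 : ρ e (ρ x w0) = s • ρ x (ρ e w0) := by
      have h3 : (ρ e * ρ x) w0 = (s • (ρ x * ρ e)) w0 := by rw [h1]
      exact h3
    rw [hc w0 hw0, hc _ (hK'W e heK w0 hw0), map_smul, smul_smul] at h2
    have h4 : (c - s * c) • ρ e w0 = 0 := by rw [sub_smul, h2, sub_self]
    have h5 : ρ e w0 ≠ 0 := fun h0 => hw00 (rho_inj ρ e (h0.trans (map_zero _).symm))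
    have hc0 : c ≠ 0 := by
      rintro rfl
      have h6 := hc w0 hw0
      rw [zero_smul] at h6
      exact hw00 (rho_inj ρ x (h6.trans (map_zero _).symm))
    rcases smul_eq_zero.1 h4 with h6 | h6
    · have h7 : (1 - s) * c = 0 := by rw [sub_mul, one_mul]; exact h6
      rcases mul_eq_zero.1 h7 with h8 | h8
      · rw [← sub_eq_zero.1 h8, one_smul] at h1
        exact h1
      · exact absurd h8 hc0
    · exact absurd h6 h5
  have hWt : W ≠ ⊤ := by
    rintro rfl
    have h1 : ∀ x ∈ X, x ∈ scl ρ := by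
      intro x hx
      obtain ⟨c, hc⟩ := hXs x hx
      refine mem_scl.2 ⟨c, LinearMap.ext fun w => ?_⟩
      rw [hc w Submodule.mem_top, LinearMap.smul_apply, Module.End.one_apply]
    refine hEZ fun e he => ?_
    have h2 : e ∈ X := hXmax e he fun x hx => (hsc x (h1 x hx) e).symm
    exact (hZs e).2 ⟨he, h1 e h2⟩
  -- the index in `E`
  have hr1 : K'.relIndex E ≠ 0 := by
    intro h0
    have h1 := Subgroup.relIndex_eq_zero_of_le_right hEC h0
    rw [hK'r] at h1
    exact hK0 h1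
  have hr2 : K'.relIndex E ≤ K.index := by
    rw [← hK'r]
    exact Subgroup.relIndex_le_of_le_right hEC (by rw [hK'r]; exact hK0)
  obtain ⟨U, hU0, hEU, hUi⟩ := orbit_span ρ K' E w0 hw00 (fun k hk hkE => by
    obtain ⟨c, hc⟩ := hXs k (hKE k hk hkE)
    exact ⟨c, hc w0 hw0⟩) hr1
  have hUnt : Nontrivial U := Submodule.nontrivial_iff_ne_bot.2 hU0
  obtain ⟨h10, h11⟩ := indep_index (res ρ E U hEU) (fun a b => by
      obtain ⟨c, hc⟩ := mem_scl.1 (hcomm a a.2 b b.2)
      refine mem_scl.2 ⟨c, LinearMap.ext fun w => Subtype.ext ?_⟩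
      rw [res_apply]
      have h1 : ρ (((a * b * a⁻¹ * b⁻¹ : E)) : G) = c • (1 : Module.End ℂ V) := hc
      rw [h1]
      rfl) (Z.subgroupOf E) inferInstance (fun c hc => by
      rw [Subgroup.mem_subgroupOf, hZs]
      refine ⟨c.2, hcen c c.2 fun y hy => ?_⟩
      obtain ⟨s, hs⟩ := mem_scl.1 (hcomm c c.2 y hy)
      have h1 : ρ c * ρ y = s • (ρ y * ρ c) := by
        have h7 : (c : G) * y = ((c : G) * y * (c : G)⁻¹ * y⁻¹) * (y * c) := by group
        rw [← map_mul, h7, map_mul, hs, smul_mul_assoc, one_mul, map_mul]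
      obtain ⟨u, hu⟩ := exists_ne (0 : U)
      have h2 := congrArg (fun T : Module.End ℂ U => ((T u : U) : V)) (hc ⟨y, hy⟩)
      change ρ c (ρ y (u : V)) = ρ y (ρ c (u : V)) at h2
      have h3 : ρ c (ρ y (u : V)) = s • ρ y (ρ c (u : V)) := by
        have h4 : (ρ c * ρ y) (u : V) = (s • (ρ y * ρ c)) (u : V) := by rw [h1]
        exact h4
      have h5 : ρ y (ρ c (u : V)) ≠ 0 := by
        intro h0
        have h6 := rho_inj ρ y (h0.trans (map_zero _).symm)
        have h7 := rho_inj ρ c (h6.trans (map_zero _).symm)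
        exact hu (Subtype.ext h7)
      rw [h2] at h3
      have h6 : (1 - s) • ρ y (ρ c (u : V)) = 0 := by rw [sub_smul, one_smul, ← h3, sub_self]
      rcases smul_eq_zero.1 h6 with h8 | h8
      · rw [← sub_eq_zero.1 h8, one_smul] at h1
        exact h1
      · exact absurd h8 h5)
  have hN : Z.relIndex E ≤ K.index * K.index :=
    h11.trans (Nat.mul_le_mul (hUi.trans hr2) (hUi.trans hr2))
  refine ⟨K', W, hW0, hWt, hK'W, hK'0, ?_⟩
  rw [hK'i]
  calc K.index * C.index * finrank ℂ W ^ 21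
      ≤ K.index * (K.index * K.index) ^ 10 * finrank ℂ W ^ 21 :=
        Nat.mul_le_mul_right _ (Nat.mul_le_mul_left _ (hCi.trans (Nat.pow_le_pow_left hN 10)))
    _ = (K.index * finrank ℂ W) ^ 21 := by ring
    _ ≤ finrank ℂ V ^ 21 := Nat.pow_le_pow_left hKi 21

theorem main (hO : S_ORD.{u, u}) : ∀ (m : ℕ) (G : Type u) [Group G] (V : Type v)
    [AddCommGroup V] [Module ℂ V]
    [FiniteDimensional ℂ V] [Nontrivial V] (ρ : G →* Module.End ℂ V), finrank ℂ V = m →
    (∃ n : ℕ, ∀ a ∈ derivedSeries G n, ρ a = 1) →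
    ∃ H : Subgroup G, H.index ≠ 0 ∧ H.index ≤ finrank ℂ V ^ 21 ∧ ∃ v : V, v ≠ 0 ∧
      ∀ g ∈ H, ∃ c : ℂ, ρ g v = c • v := by
  intro m
  induction m using Nat.strong_induction_on with
  | _ m ih =>
    intro G _ V _ _ _ _ ρ hm hsolv
    classical
    -- the induction step
    have key : ∀ (K : Subgroup G) (W : Submodule ℂ V), W ≠ ⊥ → W ≠ ⊤ →
        (∀ g ∈ K, ∀ w ∈ W, ρ g w ∈ W) → K.index ≠ 0 →
        K.index * finrank ℂ W ^ 21 ≤ finrank ℂ V ^ 21 →
        ∃ H : Subgroup G, H.index ≠ 0 ∧ H.index ≤ finrank ℂ V ^ 21 ∧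
          ∃ v : V, v ≠ 0 ∧ ∀ g ∈ H, ∃ c : ℂ, ρ g v = c • v := by
      intro K W hW0 hWt hKW hK0 hKi
      have hlt : finrank ℂ W < m := by
        rw [← hm]
        exact Submodule.finrank_lt hWt
      have : Nontrivial W := Submodule.nontrivial_iff_ne_bot.2 hW0
      obtain ⟨n, hn⟩ := hsolv
      obtain ⟨H0, h1, h2, w, hw0, hw⟩ := ih (finrank ℂ W) hlt K W (res ρ K W hKW) rfl
        ⟨n, by
          intro a ha
          have h3 : (a : G) ∈ derivedSeries G n :=
            map_derivedSeries_le_derivedSeries K.subtype n ⟨a, ha, rfl⟩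
          have h4 := hn _ h3
          ext w
          rw [res_apply, h4]
          rfl⟩
      refine ⟨H0.map K.subtype, ?_, ?_, (w : V), fun h => hw0 (Subtype.ext h), ?_⟩
      · rw [Subgroup.index_map_subtype]
        exact mul_ne_zero h1 hK0
      · rw [Subgroup.index_map_subtype]
        refine (Nat.mul_le_mul_right _ h2).trans ?_
        rw [mul_comm]
        exact hKi
      · rintro g ⟨k, hk, rfl⟩
        obtain ⟨c, hc⟩ := hw k hk
        exact ⟨c, congrArg Subtype.val hc⟩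
    -- a commutative normal subgroup
    have abel : ∀ D : Subgroup G, D.Normal → (∀ a ∈ D, ∀ b ∈ D, ρ a * ρ b = ρ b * ρ a) →
        ¬ D ≤ scl ρ → ∃ H : Subgroup G, H.index ≠ 0 ∧ H.index ≤ finrank ℂ V ^ 21 ∧
          ∃ v : V, v ≠ 0 ∧ ∀ g ∈ H, ∃ c : ℂ, ρ g v = c • v := by
      intro D hDn hDc hDs
      obtain ⟨K, W, hW0, hKW, hK0, hKi, hKs⟩ := step ρ D hDc
      have hWt : W ≠ ⊤ := by
        rintro rfl
        refine hDs fun d hd => ?_
        obtain ⟨μ, hμ⟩ := hKs d hd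
        rw [mem_scl]
        refine ⟨μ, LinearMap.ext fun w => ?_⟩
        rw [hμ w Submodule.mem_top, LinearMap.smul_apply, Module.End.one_apply]
      refine key K W hW0 hWt hKW hK0 ?_
      calc K.index * finrank ℂ W ^ 21 ≤ K.index ^ 21 * finrank ℂ W ^ 21 :=
            Nat.mul_le_mul_right _ (Nat.le_self_pow (by norm_num) _)
        _ = (K.index * finrank ℂ W) ^ 21 := (mul_pow _ _ _).symm
        _ ≤ finrank ℂ V ^ 21 := Nat.pow_le_pow_left hKi 21
    by_cases hall : (⊤ : Subgroup G) ≤ scl ρ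
    · obtain ⟨v, hv⟩ := exists_ne (0 : V)
      refine ⟨⊤, by rw [Subgroup.index_top]; exact one_ne_zero, ?_, v, hv, fun g _ => ?_⟩
      · rw [Subgroup.index_top]
        exact Nat.one_le_pow _ _ Module.finrank_pos
      · obtain ⟨c, hc⟩ := mem_scl.1 (hall (Subgroup.mem_top g))
        refine ⟨c, ?_⟩
        rw [hc, LinearMap.smul_apply, Module.End.one_apply]
    · -- the last term of the derived series which does not act by scalars
      have hex : ∃ n : ℕ, derivedSeries G n ≤ scl ρ := by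
        obtain ⟨n, hn⟩ := hsolv
        exact ⟨n, fun a ha => mem_scl.2 ⟨1, by rw [hn a ha, one_smul]⟩⟩
      obtain ⟨n, hn1, hn2⟩ : ∃ n : ℕ, ¬ derivedSeries G n ≤ scl ρ ∧
          derivedSeries G (n + 1) ≤ scl ρ := by
        have h0 : Nat.find hex ≠ 0 := by
          intro h0
          have := Nat.find_spec hex
          rw [h0, derivedSeries_zero] at this
          exact hall this
        obtain ⟨n, hn⟩ := Nat.exists_eq_succ_of_ne_zero h0
        refine ⟨n, Nat.find_min hex (by omega), ?_⟩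
        have := Nat.find_spec hex
        rw [hn] at this
        exact this
      obtain ⟨M, hMd⟩ : ∃ M : Subgroup G, M = derivedSeries G n := ⟨_, rfl⟩
      have hMn : M.Normal := by
        rw [hMd]
        infer_instance
      have hMc : ∀ a ∈ M, ∀ b ∈ M, a * b * a⁻¹ * b⁻¹ ∈ scl ρ := by
        intro a ha b hb
        apply hn2
        rw [derivedSeries_succ]
        rw [hMd] at ha hb
        exact Subgroup.commutator_mem_commutator ha hb
      rw [← hMd] at hn1
      -- the elements which commute with a normal subgroup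
      have cenn : ∀ D : Subgroup G, D.Normal → ∃ Z : Subgroup G, Z.Normal ∧
          ∀ g, g ∈ Z ↔ g ∈ D ∧ ∀ y ∈ D, ρ g * ρ y = ρ y * ρ g := by
        intro D hDn
        obtain ⟨Z, hZd⟩ : ∃ Z : Subgroup G, ∀ g, g ∈ Z ↔ g ∈ D ∧
            ∀ y ∈ D, ρ g * ρ y = ρ y * ρ g := by
          refine ⟨D ⊓ ⨅ y ∈ D, cen ρ y, fun g => ?_⟩
          rw [Subgroup.mem_inf, Subgroup.mem_iInf]
          refine and_congr Iff.rfl (forall_congr' fun y => ?_)
          rw [Subgroup.mem_iInf]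
          exact Iff.rfl
        refine ⟨Z, ⟨fun d hd g => ?_⟩, hZd⟩
        rw [hZd] at hd ⊢
        refine ⟨hDn.conj_mem d hd.1 g, fun y hy => ?_⟩
        have h6 : g⁻¹ * y * g ∈ D := by simpa using hDn.conj_mem y hy g⁻¹
        have h7 := hd.2 _ h6
        have h8 : ρ (g * d * g⁻¹) * ρ y = ρ g * (ρ d * ρ (g⁻¹ * y * g)) * ρ g⁻¹ := by
          rw [← map_mul, ← map_mul, ← map_mul, ← map_mul]
          congr 1
          group
        have h9 : ρ y * ρ (g * d * g⁻¹) = ρ g * (ρ (g⁻¹ * y * g) * ρ d) * ρ g⁻¹ := by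
          rw [← map_mul, ← map_mul, ← map_mul, ← map_mul]
          congr 1
          group
        rw [h8, h9, h7]
      have hsc : ∀ d ∈ scl ρ, ∀ y : G, ρ d * ρ y = ρ y * ρ d := by
        intro d hd y
        obtain ⟨c, hc⟩ := mem_scl.1 hd
        rw [hc, smul_mul_assoc, one_mul, mul_smul_comm, mul_one]
      by_cases hZ : ∀ c ∈ M, (∀ y ∈ M, ρ c * ρ y = ρ y * ρ c) → c ∈ scl ρ
      · -- case (b)
        obtain ⟨Z, hZd⟩ : ∃ Z : Subgroup G, Z = M ⊓ scl ρ := ⟨_, rfl⟩
        have hZn : Z.Normal := by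
          rw [hZd]
          infer_instance
        have hZM : Z ≤ M := by rw [hZd]; exact inf_le_left
        have hMZ : ¬ M ≤ Z := fun h => hn1 (h.trans (by rw [hZd]; exact inf_le_right))
        have hfin : Z.relIndex M ≠ 0 := by
          refine (indep_index (ρ.comp M.subtype) (fun a b => ?_) (Z.subgroupOf M) inferInstance
            (fun c hc => ?_)).1
          · obtain ⟨c, hc⟩ := mem_scl.1 (hMc a a.2 b b.2)
            exact mem_scl.2 ⟨c, hc⟩
          · rw [Subgroup.mem_subgroupOf, hZd, Subgroup.mem_inf]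
            exact ⟨c.2, hZ c c.2 fun y hy => hc ⟨y, hy⟩⟩
        have hexE : ∃ k : ℕ, ∃ E : Subgroup G, E.Normal ∧ Z ≤ E ∧ E ≤ M ∧ ¬ E ≤ Z ∧
            Z.relIndex E = k := ⟨_, M, hMn, hZM, le_rfl, hMZ, rfl⟩
        obtain ⟨E, hEn, hZE, hEM, hEZ, hEk⟩ := Nat.find_spec hexE
        have hEmin : ∀ E' : Subgroup G, E'.Normal → Z ≤ E' → E' ≤ M → ¬ E' ≤ Z →
            Z.relIndex E ≤ Z.relIndex E' := by
          intro E' h1 h2 h3 h4
          rw [hEk]
          exact Nat.find_min' hexE ⟨E', h1, h2, h3, h4, rfl⟩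
        clear hEk
        have hfinE : Z.relIndex E ≠ 0 := by
          intro h0
          have h1 := Subgroup.relIndex_mul_relIndex Z E M hZE hEM
          rw [h0, zero_mul] at h1
          exact hfin h1.symm
        have hmin : ∀ E' : Subgroup G, E'.Normal → Z ≤ E' → E' ≤ E → E' ≤ Z ∨ E ≤ E' := by
          intro E' h1 h2 h3
          by_cases h4 : E' ≤ Z
          · exact Or.inl h4
          · right
            have h5 := hEmin E' h1 h2 (h3.trans hEM) h4
            have h6 := Subgroup.relIndex_mul_relIndex Z E' E h2 h3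
            have h7 : E'.relIndex E ≠ 0 := by
              intro h0
              rw [h0, mul_zero] at h6
              exact hfinE h6.symm
            have h8 : E'.relIndex E ≤ 1 := by
              by_contra hlt
              push Not at hlt
              have h9 : Z.relIndex E' * 2 ≤ Z.relIndex E' * E'.relIndex E :=
                Nat.mul_le_mul_left _ hlt
              omega
            exact Subgroup.relIndex_eq_one.1 (by omega)
        have hEc : ∀ a ∈ E, ∀ b ∈ E, a * b * a⁻¹ * b⁻¹ ∈ scl ρ := fun a ha b hb =>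
          hMc a (hEM ha) b (hEM hb)
        have hZs : ∀ g, g ∈ Z ↔ g ∈ E ∧ g ∈ scl ρ := by
          intro g
          constructor
          · intro hg
            refine ⟨hZE hg, ?_⟩
            rw [hZd] at hg
            exact hg.2
          · rintro ⟨h1, h2⟩
            rw [hZd]
            exact ⟨hEM h1, h2⟩
        by_cases hab : ∀ a ∈ E, ∀ b ∈ E, ρ a * ρ b = ρ b * ρ a
        · exact abel E hEn hab fun h => hEZ fun e he => (hZs e).2 ⟨he, h he⟩
        · obtain ⟨Z', hZ'n, hZ'd⟩ := cenn E hEn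
          have h1 : Z ≤ Z' := by
            intro z hz
            rw [hZ'd]
            exact ⟨hZE hz, fun y _ => hsc z ((hZs z).1 hz).2 y⟩
          have h2 : Z' ≤ E := fun z hz => ((hZ'd z).1 hz).1
          have h3 : Z' ≤ Z := by
            rcases hmin Z' hZ'n h1 h2 with h4 | h4
            · exact h4
            · exact absurd (fun a ha b hb => ((hZ'd a).1 (h4 ha)).2 b hb) hab
          obtain ⟨K, W, hW0, hWt, hKW, hK0, hKi⟩ := extra hO ρ hsolv Z E hZn hEn hZE hEZ hZs hEc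
            hfinE hmin (fun c hc hcy => ((hZs c).1 (h3 ((hZ'd c).2 ⟨hc, hcy⟩))).2)
          exact key K W hW0 hWt hKW hK0 hKi
      · -- case (a)
        push Not at hZ
        obtain ⟨c, hcM, hcc, hcs⟩ := hZ
        obtain ⟨Z, hZn, hZd⟩ := cenn M hMn
        exact abel Z hZn (fun a ha b hb => ((hZd a).1 ha).2 b ((hZd b).1 hb).1)
          (fun h => hcs (h ((hZd c).2 ⟨hcM, hcc⟩)))

/-- EIG3 -/
theorem eig3 (h : S_ORD.{u, u}) : Pool.Agent.Y552.CT.S_EIG3.{u, v} := by
  intro G _ V _ _ _ _ ρ hs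
  exact main h _ G V ρ rfl hs

end Pool.Agent.Y61.CT
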